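import Mathlib

set_option autoImplicit false

/-!
Sets of finite perimeter in metric measure spaces: definitions, and the real line with Lebesgue
measure plus a point mass at `0`.
-/

namespace Pool.Agent.V1186.BVM

open Filter Topology Set MeasureTheory
open scoped ENNReal NNReal

variable {X : Type*} [MetricSpace X]

/-- The best Lipschitz constant of `f` on `S` (a pair of equal points contributes `0 / 0 = 0`). -/
noncomputable def lipConst (f : X → ℝ) (S : Set X) : ℝ≥0∞ :=
  ⨆ (y : X) (_ : y ∈ S) (z : X) (_ : z ∈ S), edist (f y) (f z) / edist y z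

/-- The asymptotic slope `lip_a (f) (x)`, the infimum over `r > 0` of the best Lipschitz constant
of `f` on the ball `B_r (x)`. -/
noncomputable def aslope (f : X → ℝ) (x : X) : ℝ≥0∞ :=
  ⨅ (r : ℝ) (_ : 0 < r), lipConst f (Metric.ball x r)

/-- Convergence of `u n` to `f` in `L¹_loc (m|_A)`: every point of `A` has a neighbourhood `U` such
that the integral of `|u n - f|` over `U ∩ A` tends to zero. -/
def TendstoL1loc [MeasurableSpace X] (m : Measure X) (A : Set X) (u : ℕ → X → ℝ) (f : X → ℝ) :
    Prop :=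
  ∀ x ∈ A, ∃ U ∈ 𝓝 x, Tendsto (fun n => ∫⁻ y in U ∩ A, ‖u n y - f y‖ₑ ∂m) atTop (𝓝 0)

/-- The total variation `|Df| (A)` on an open set `A`. -/
noncomputable def totalVar [MeasurableSpace X] (m : Measure X) (f : X → ℝ) (A : Set X) : ℝ≥0∞ :=
  ⨅ (u : ℕ → X → ℝ) (_ : (∀ n, LocallyLipschitzOn A (u n)) ∧ TendstoL1loc m A u f),
    liminf (fun n => ∫⁻ x in A, aslope (u n) x ∂m) atTop

/-- The perimeter `Per (E) = |D χ_E| (X)`. -/
noncomputable def perimeter [MeasurableSpace X] (m : Measure X) (E : Set X) : ℝ≥0∞ :=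
  totalVar m (E.indicator fun _ => (1 : ℝ)) univ

/-- The best Lipschitz constant is a Lipschitz constant. -/
theorem lipschitzOn_of_lipConst {f : X → ℝ} {S : Set X} {K : ℝ≥0} (h : lipConst f S ≤ K) :
    LipschitzOnWith K f S := by
  intro y hy z hz
  by_cases hyz : y = z
  · subst hyz; simp
  have h1 : edist (f y) (f z) / edist y z ≤ K := by
    refine le_trans ?_ h
    unfold lipConst
    exact le_iSup₂_of_le y hy (le_iSup₂_of_le z hz le_rfl)
  exact (ENNReal.div_le_iff (by simpa [edist_eq_zero] using hyz) (edist_ne_top y z)).mp h1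

theorem lipConst_le {f : X → ℝ} {S : Set X} {K : ℝ≥0} (h : LipschitzOnWith K f S) :
    lipConst f S ≤ K := by
  unfold lipConst
  refine iSup₂_le fun y hy => iSup₂_le fun z hz => ?_
  by_cases hyz : y = z
  · subst hyz; simp
  exact (ENNReal.div_le_iff (by simpa [edist_eq_zero] using hyz) (edist_ne_top y z)).mpr
    (h hy hz)

theorem aslope_le {f : X → ℝ} {x : X} {K : ℝ≥0} {S : Set X} (hS : S ∈ 𝓝 x)
    (h : LipschitzOnWith K f S) : aslope f x ≤ K := by
  obtain ⟨r, hr, hrS⟩ := Metric.mem_nhds_iff.mp hS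
  exact iInf₂_le_of_le r hr (lipConst_le (h.mono hrS))

theorem aslope_eq_zero {f : X → ℝ} {x : X} {b : ℝ} {S : Set X} (hS : S ∈ 𝓝 x)
    (h : ∀ y ∈ S, f y = b) : aslope f x = 0 := by
  have : LipschitzOnWith 0 f S := by
    intro y hy z hz
    rw [h y hy, h z hz]; simp
  have := aslope_le hS this
  simpa using this

/-! ### The real line -/

theorem enorm_deriv_le_aslope (u : ℝ → ℝ) (x : ℝ) : ‖deriv u x‖ₑ ≤ aslope u x := by
  unfold aslope
  refine le_iInf₂ fun r hr => ?_
  by_cases htop : lipConst u (Metric.ball x r) = ⊤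
  · rw [htop]; exact le_top
  · have h1 : LipschitzOnWith (lipConst u (Metric.ball x r)).toNNReal u (Metric.ball x r) :=
      lipschitzOn_of_lipConst (by rw [ENNReal.coe_toNNReal htop])
    have h2 := norm_deriv_le_of_lipschitzOn (Metric.ball_mem_nhds x hr) h1
    rw [← ENNReal.coe_toNNReal htop, enorm_le_coe]
    exact_mod_cast h2

/-- The asymptotic slope is an upper gradient on the line. -/
theorem sub_le_lintegral {u : ℝ → ℝ} (hu : LocallyLipschitzOn univ u) {a b : ℝ} (hab : a ≤ b) :
    ‖u b - u a‖ₑ ≤ ∫⁻ x in Ioc a b, aslope u x := by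
  obtain ⟨K, hK⟩ := (hu.mono (subset_univ (uIcc a b))).exists_lipschitzOnWith_of_compact
    isCompact_uIcc
  have h1 := hK.absolutelyContinuousOnInterval.integral_deriv_eq_sub
  rw [← h1, intervalIntegral.integral_of_le hab]
  refine (enorm_integral_le_lintegral_enorm _).trans ?_
  exact lintegral_mono fun x => enorm_deriv_le_aslope u x

theorem exists_close {S : Set ℝ} (hS : MeasurableSet S) {g : ℝ → ℝ≥0∞} {ε : ℝ≥0∞}
    (h : ∫⁻ x in S, g x < ε * volume S) : ∃ x ∈ S, g x < ε := by
  by_contra hcon
  push Not at hcon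
  have h1 : ∫⁻ _ in S, ε ≤ ∫⁻ x in S, g x := setLIntegral_mono' hS hcon
  rw [setLIntegral_const] at h1
  exact absurd (lt_of_le_of_lt h1 h) (lt_irrefl _)

/-- Local convergence gives convergence on compact sets. -/
theorem tendsto_compact {m : Measure ℝ} {u : ℕ → ℝ → ℝ} {f : ℝ → ℝ}
    (h : TendstoL1loc m univ u f) {K : Set ℝ} (hK : IsCompact K) :
    Tendsto (fun n => ∫⁻ y in K, ‖u n y - f y‖ₑ ∂m) atTop (𝓝 0) := by
  refine hK.induction_on (p := fun s => Tendsto (fun n => ∫⁻ y in s, ‖u n y - f y‖ₑ ∂m)
    atTop (𝓝 0)) ?_ ?_ ?_ ?_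
  · simp
  · intro s t hst ht
    refine tendsto_of_tendsto_of_tendsto_of_le_of_le tendsto_const_nhds ht (fun _ => zero_le) ?_
    intro n
    exact lintegral_mono_set hst
  · intro s t hs ht
    have := hs.add ht
    rw [add_zero] at this
    refine tendsto_of_tendsto_of_tendsto_of_le_of_le tendsto_const_nhds this
      (fun _ => zero_le) ?_
    intro n
    exact lintegral_union_le _ s t
  · intro x _
    obtain ⟨U, hU, hUt⟩ := h x (mem_univ x)
    refine ⟨U, mem_nhdsWithin_of_mem_nhds hU, ?_⟩
    simpa using hUt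

/-- Lebesgue measure plus a unit point mass at the origin. -/
noncomputable def mLine : Measure ℝ := volume + Measure.dirac 0

theorem volume_le_mLine : (volume : Measure ℝ) ≤ mLine := by
  unfold mLine
  exact Measure.le_add_right le_rfl

theorem mLine_bounded {S : Set ℝ} (hS : Bornology.IsBounded S) : mLine S < ⊤ := by
  unfold mLine
  rw [Measure.add_apply]
  exact ENNReal.add_lt_top.mpr ⟨hS.measure_lt_top, measure_lt_top _ _⟩

/-- Sets of positive finite length have perimeter at least two. -/
theorem two_le_perimeter {A : Set ℝ} (hA : MeasurableSet A) (h0 : volume A ≠ 0)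
    (hfin : volume A ≠ ⊤) : 2 ≤ perimeter mLine A := by
  classical
  unfold perimeter totalVar
  refine le_iInf₂ fun u hu => ?_
  obtain ⟨hlip, hconv⟩ := hu
  set χ : ℝ → ℝ := A.indicator fun _ => (1 : ℝ) with hχ
  -- a bounded piece of `A`
  obtain ⟨M, hM⟩ : ∃ M : ℕ, volume (A ∩ Icc (-(M : ℝ)) M) ≠ 0 := by
    by_contra hcon
    push Not at hcon
    apply h0
    have : A ⊆ ⋃ M : ℕ, A ∩ Icc (-(M : ℝ)) M := by
      intro x hx
      obtain ⟨M, hM⟩ := exists_nat_ge |x|
      exact mem_iUnion.mpr ⟨M, hx, abs_le.mp hM⟩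
    exact measure_mono_null this (measure_iUnion_null hcon)
  set K : ℝ := (volume A).toReal + 1 with hK
  have hK0 : 0 < K := by positivity
  have hKA : volume A < ENNReal.ofReal K := by
    rw [ENNReal.lt_ofReal_iff_toReal_lt hfin, hK]; linarith
  set S1 : Set ℝ := Ico (-(M : ℝ) - K) (-M) \ A with hS1
  set S2 : Set ℝ := A ∩ Icc (-(M : ℝ)) M with hS2
  set S3 : Set ℝ := Ioc (M : ℝ) (M + K) \ A with hS3
  have hS1m : MeasurableSet S1 := measurableSet_Ico.diff hA
  have hS2m : MeasurableSet S2 := hA.inter measurableSet_Icc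
  have hS3m : MeasurableSet S3 := measurableSet_Ioc.diff hA
  have hS1p : volume S1 ≠ 0 := by
    intro h
    have h1 : volume (Ico (-(M : ℝ) - K) (-M)) ≤ volume A := by
      have : Ico (-(M : ℝ) - K) (-M) ⊆ S1 ∪ A := by
        intro x hx
        by_cases hxA : x ∈ A
        · exact Or.inr hxA
        · exact Or.inl ⟨hx, hxA⟩
      calc volume (Ico (-(M : ℝ) - K) (-M)) ≤ volume (S1 ∪ A) := measure_mono this
        _ ≤ volume S1 + volume A := measure_union_le _ _
        _ = volume A := by rw [h, zero_add]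
    rw [Real.volume_Ico] at h1
    have h2 : -(M : ℝ) - (-(M : ℝ) - K) = K := by ring
    rw [h2] at h1
    exact absurd (lt_of_le_of_lt h1 hKA) (lt_irrefl _)
  have hS3p : volume S3 ≠ 0 := by
    intro h
    have h1 : volume (Ioc (M : ℝ) (M + K)) ≤ volume A := by
      have : Ioc (M : ℝ) (M + K) ⊆ S3 ∪ A := by
        intro x hx
        by_cases hxA : x ∈ A
        · exact Or.inr hxA
        · exact Or.inl ⟨hx, hxA⟩
      calc volume (Ioc (M : ℝ) (M + K)) ≤ volume (S3 ∪ A) := measure_mono this
        _ ≤ volume S3 + volume A := measure_union_le _ _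
        _ = volume A := by rw [h, zero_add]
    rw [Real.volume_Ioc] at h1
    have h2 : (M : ℝ) + K - M = K := by ring
    rw [h2] at h1
    exact absurd (lt_of_le_of_lt h1 hKA) (lt_irrefl _)
  set J : Set ℝ := Icc (-(M : ℝ) - K) (M + K) with hJ
  have hM0 : (0 : ℝ) ≤ M := Nat.cast_nonneg M
  have hJ1 : S1 ⊆ J := fun x hx => ⟨hx.1.1, by linarith [hx.1.2]⟩
  have hJ2 : S2 ⊆ J := fun x hx => ⟨by linarith [hx.2.1], by linarith [hx.2.2]⟩
  have hJ3 : S3 ⊆ J := fun x hx => ⟨by linarith [hx.1.1], hx.1.2⟩
  have hconvJ : Tendsto (fun n => ∫⁻ y in J, ‖u n y - χ y‖ₑ) atTop (𝓝 0) := by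
    have h1 := tendsto_compact hconv (isCompact_Icc : IsCompact J)
    refine tendsto_of_tendsto_of_tendsto_of_le_of_le tendsto_const_nhds h1
      (fun _ => zero_le) ?_
    intro n
    exact lintegral_mono' (Measure.restrict_mono le_rfl volume_le_mLine) le_rfl
  -- enough: every number below two is eventually a lower bound
  have key : ∀ ε : ℝ, 0 < ε → ε < 1 / 2 →
      ∀ᶠ n in atTop, ENNReal.ofReal (2 - 4 * ε) ≤ ∫⁻ x in univ, aslope (u n) x ∂mLine := by
    intro ε hε hε2
    have hεe : ENNReal.ofReal ε ≠ 0 := by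
      rw [ne_eq, ENNReal.ofReal_eq_zero]; linarith
    have hpos : ∀ S : Set ℝ, volume S ≠ 0 → 0 < ENNReal.ofReal ε * volume S := fun S hS =>
      pos_iff_ne_zero.mpr (mul_ne_zero hεe hS)
    filter_upwards [hconvJ.eventually_lt_const (hpos S1 hS1p),
      hconvJ.eventually_lt_const (hpos S2 hM), hconvJ.eventually_lt_const (hpos S3 hS3p)]
      with n h1 h2 h3
    obtain ⟨x, hx, hxu⟩ := exists_close hS1m (lt_of_le_of_lt (lintegral_mono_set hJ1) h1)
    obtain ⟨y, hy, hyu⟩ := exists_close hS2m (lt_of_le_of_lt (lintegral_mono_set hJ2) h2)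
    obtain ⟨z, hz, hzu⟩ := exists_close hS3m (lt_of_le_of_lt (lintegral_mono_set hJ3) h3)
    have hχx : χ x = 0 := by rw [hχ, indicator_of_notMem hx.2]
    have hχy : χ y = 1 := by rw [hχ, indicator_of_mem hy.1]
    have hχz : χ z = 0 := by rw [hχ, indicator_of_notMem hz.2]
    rw [hχx, sub_zero, Real.enorm_eq_ofReal_abs, ENNReal.ofReal_lt_ofReal_iff hε] at hxu
    rw [hχy, Real.enorm_eq_ofReal_abs, ENNReal.ofReal_lt_ofReal_iff hε] at hyu
    rw [hχz, sub_zero, Real.enorm_eq_ofReal_abs, ENNReal.ofReal_lt_ofReal_iff hε] at hzu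
    have hxy : x ≤ y := by linarith [hx.1.2, hy.2.1]
    have hyz : y ≤ z := by linarith [hy.2.2, hz.1.1]
    have g1 : ENNReal.ofReal (1 - 2 * ε) ≤ ∫⁻ t in Ioc x y, aslope (u n) t := by
      refine le_trans ?_ (sub_le_lintegral (hlip n) hxy)
      rw [Real.enorm_eq_ofReal_abs]
      apply ENNReal.ofReal_le_ofReal
      have := (abs_lt.mp hxu).2
      have := (abs_lt.mp hyu).1
      exact le_trans (by linarith) (le_abs_self _)
    have g2 : ENNReal.ofReal (1 - 2 * ε) ≤ ∫⁻ t in Ioc y z, aslope (u n) t := by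
      refine le_trans ?_ (sub_le_lintegral (hlip n) hyz)
      rw [Real.enorm_eq_ofReal_abs]
      apply ENNReal.ofReal_le_ofReal
      have := (abs_lt.mp hzu).2
      have := (abs_lt.mp hyu).1
      exact le_trans (by linarith) (neg_le_abs _)
    calc ENNReal.ofReal (2 - 4 * ε) = ENNReal.ofReal (1 - 2 * ε) + ENNReal.ofReal (1 - 2 * ε) := by
          rw [← ENNReal.ofReal_add (by linarith) (by linarith)]
          congr 1; ring
      _ ≤ (∫⁻ t in Ioc x y, aslope (u n) t) + ∫⁻ t in Ioc y z, aslope (u n) t :=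
          add_le_add g1 g2
      _ = ∫⁻ t in Ioc x y ∪ Ioc y z, aslope (u n) t := by
          rw [lintegral_union measurableSet_Ioc]
          rw [Set.disjoint_left]
          intro t ht ht'
          exact absurd ht.2 (not_le.mpr ht'.1)
      _ ≤ ∫⁻ t in univ, aslope (u n) t := lintegral_mono_set (subset_univ _)
      _ ≤ ∫⁻ t in univ, aslope (u n) t ∂mLine :=
          lintegral_mono' (Measure.restrict_mono le_rfl volume_le_mLine) le_rfl
  have key2 : ∀ ε : ℝ, 0 < ε → ε < 1 / 2 → ENNReal.ofReal (2 - 4 * ε) ≤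
      liminf (fun n => ∫⁻ x in univ, aslope (u n) x ∂mLine) atTop := fun ε h1 h2 =>
    le_liminf_of_le (by isBoundedDefault) (key ε h1 h2)
  apply le_of_forall_lt
  intro b hb
  have hbt : b ≠ ⊤ := ne_top_of_lt hb
  set b' := b.toReal with hb'
  have hbb : b = ENNReal.ofReal b' := (ENNReal.ofReal_toReal hbt).symm
  have hb'2 : b' < 2 := by
    have := (ENNReal.toReal_lt_toReal hbt (by simp)).mpr hb
    simpa using this
  have hb'0 : 0 ≤ b' := ENNReal.toReal_nonneg
  refine lt_of_lt_of_le ?_ (key2 ((2 - b') / 8) (by linarith) (by linarith))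
  rw [hbb, ENNReal.ofReal_lt_ofReal_iff (by linarith)]
  linarith

/-- The trapezoidal approximations of the indicator function of `(0, L)`. -/
noncomputable def trap (L N : ℝ) (x : ℝ) : ℝ := max 0 (min 1 (min (N * x - 1) (1 + N * (L - x))))

theorem trap_lip {L N : ℝ} (hN : 0 ≤ N) : LipschitzWith N.toNNReal (trap L N) := by
  have h1 : LipschitzWith N.toNNReal (fun x : ℝ => N * x - 1) := by
    apply LipschitzWith.of_dist_le_mul
    intro x y
    rw [Real.dist_eq, Real.dist_eq, Real.coe_toNNReal _ hN]
    have : N * x - 1 - (N * y - 1) = N * (x - y) := by ring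
    rw [this, abs_mul, abs_of_nonneg hN]
  have h2 : LipschitzWith N.toNNReal (fun x : ℝ => 1 + N * (L - x)) := by
    apply LipschitzWith.of_dist_le_mul
    intro x y
    rw [Real.dist_eq, Real.dist_eq, Real.coe_toNNReal _ hN]
    have : 1 + N * (L - x) - (1 + N * (L - y)) = -(N * (x - y)) := by ring
    rw [this, abs_neg, abs_mul, abs_of_nonneg hN]
  have h3 := h1.min h2
  rw [max_self] at h3
  exact (h3.const_min 1).const_max 0

theorem trap_nonneg (L N x : ℝ) : 0 ≤ trap L N x := le_max_left _ _

theorem trap_le_one (L N x : ℝ) : trap L N x ≤ 1 := max_le zero_le_one (min_le_left _ _)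

theorem trap_left {L N x : ℝ} (hx : N * x ≤ 1) : trap L N x = 0 := by
  unfold trap
  apply max_eq_left
  exact (min_le_right _ _).trans ((min_le_left _ _).trans (by linarith))

theorem trap_right {L N x : ℝ} (hx : 1 + N * (L - x) ≤ 0) : trap L N x = 0 := by
  unfold trap
  apply max_eq_left
  exact (min_le_right _ _).trans ((min_le_right _ _).trans hx)

theorem trap_mid {L N x : ℝ} (h1 : 2 ≤ N * x) (h2 : 0 ≤ N * (L - x)) : trap L N x = 1 := by
  unfold trap
  rw [min_eq_left (le_min (by linarith) (by linarith))]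
  exact max_eq_right zero_le_one

/-- The region where the approximations are not locally constant. -/
def slab (L N : ℝ) : Set ℝ := Icc (1 / N) (2 / N) ∪ Icc L (L + 1 / N)

theorem volume_slab {L N : ℝ} (hN : 0 < N) : volume (slab L N) ≤ ENNReal.ofReal (2 / N) := by
  refine (measure_union_le _ _).trans ?_
  rw [Real.volume_Icc, Real.volume_Icc, ← ENNReal.ofReal_add]
  · apply ENNReal.ofReal_le_ofReal
    apply le_of_eq; ring
  · have : 2 / N - 1 / N = 1 / N := by ring
    rw [this]; positivity
  · have : L + 1 / N - L = 1 / N := by ring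
    rw [this]; positivity

theorem trap_slope_out {L N x : ℝ} (hN : 0 < N) (hx : x ∉ slab L N) :
    aslope (trap L N) x = 0 := by
  unfold slab at hx
  rw [mem_union, not_or, mem_Icc, mem_Icc] at hx
  obtain ⟨h1, h2⟩ := hx
  by_cases hx1 : x < 1 / N
  · refine aslope_eq_zero (Iio_mem_nhds hx1) (b := 0) fun y hy => ?_
    have hy' : y < 1 / N := hy
    rw [lt_div_iff₀ hN] at hy'
    exact trap_left (by linarith)
  have hx2 : 2 / N < x := by
    by_contra hcon
    exact h1 ⟨not_lt.mp hx1, not_lt.mp hcon⟩
  by_cases hx3 : x < L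
  · refine aslope_eq_zero (Ioo_mem_nhds hx2 hx3) (b := 1) fun y hy => ?_
    obtain ⟨hy1, hy2⟩ := hy
    rw [div_lt_iff₀ hN] at hy1
    exact trap_mid (by linarith) (mul_nonneg hN.le (by linarith))
  · have hx4 : L + 1 / N < x := by
      by_contra hcon
      exact h2 ⟨not_lt.mp hx3, not_lt.mp hcon⟩
    refine aslope_eq_zero (Ioi_mem_nhds hx4) (b := 0) fun y hy => ?_
    have hy' : L + 1 / N < y := hy
    apply trap_right
    have h5 : 1 / N < y - L := by linarith
    rw [div_lt_iff₀ hN] at h5
    linarith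

theorem perimeter_Ioo_le {L : ℝ} (hL : 0 < L) : perimeter mLine (Ioo 0 L) ≤ 2 := by
  unfold perimeter totalVar
  set N : ℕ → ℝ := fun n => (n : ℝ) + 1 with hN
  have hN0 : ∀ n, 0 < N n := fun n => by positivity
  refine iInf₂_le_of_le (fun n => trap L (N n)) ⟨?_, ?_⟩ ?_
  · intro n
    exact ((trap_lip (hN0 n).le).locallyLipschitz).locallyLipschitzOn
  · intro x _
    refine ⟨univ, univ_mem, ?_⟩
    rw [inter_self]
    -- the two functions differ on a small set only
    have hbound : ∀ n, ∫⁻ y in univ, ‖trap L (N n) y - (Ioo 0 L).indicator (fun _ => (1 : ℝ)) y‖ₑ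
        ∂mLine ≤ ENNReal.ofReal (3 / N n) := by
      intro n
      have hNn := hN0 n
      set D : Set ℝ := Ioc 0 (2 / N n) ∪ Icc L (L + 1 / N n) with hD
      have hpt : ∀ y, ‖trap L (N n) y - (Ioo 0 L).indicator (fun _ => (1 : ℝ)) y‖ₑ ≤
          D.indicator (fun _ => (1 : ℝ≥0∞)) y := by
        intro y
        by_cases hy : y ∈ D
        · rw [indicator_of_mem hy, Real.enorm_eq_ofReal_abs]
          have h1 := trap_nonneg L (N n) y
          have h2 := trap_le_one L (N n) y
          rw [show (1 : ℝ≥0∞) = ENNReal.ofReal 1 by simp]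
          apply ENNReal.ofReal_le_ofReal
          by_cases hy' : y ∈ Ioo 0 L
          · rw [indicator_of_mem hy', abs_le]; constructor <;> linarith
          · rw [indicator_of_notMem hy', abs_le]; constructor <;> linarith
        · rw [indicator_of_notMem hy]
          rw [hD, mem_union, not_or, mem_Ioc, mem_Icc] at hy
          obtain ⟨h1, h2⟩ := hy
          have : trap L (N n) y = (Ioo 0 L).indicator (fun _ => (1 : ℝ)) y := by
            by_cases hy0 : y ≤ 0
            · rw [indicator_of_notMem (fun h => absurd h.1 (not_lt.mpr hy0))]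
              apply trap_left
              have : N n * y ≤ 0 := mul_nonpos_of_nonneg_of_nonpos hNn.le hy0
              linarith
            have hy1 : 2 / N n < y := by
              by_contra hcon
              exact h1 ⟨not_le.mp hy0, not_lt.mp hcon⟩
            by_cases hy2 : y < L
            · rw [indicator_of_mem (show y ∈ Ioo 0 L from ⟨not_le.mp hy0, hy2⟩)]
              rw [div_lt_iff₀ hNn] at hy1
              exact trap_mid (by linarith) (mul_nonneg hNn.le (by linarith))
            · rw [indicator_of_notMem (fun h => absurd h.2 hy2)]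
              have hy3 : L + 1 / N n < y := by
                by_contra hcon
                exact h2 ⟨not_lt.mp hy2, not_lt.mp hcon⟩
              apply trap_right
              have h5 : 1 / N n < y - L := by linarith
              rw [div_lt_iff₀ hNn] at h5
              linarith
          rw [this]; simp
      have hDm : MeasurableSet D := measurableSet_Ioc.union measurableSet_Icc
      have h0D : (0 : ℝ) ∉ D := by
        rw [hD, mem_union, not_or, mem_Ioc, mem_Icc]
        exact ⟨fun h => absurd h.1 (lt_irrefl _), fun h => absurd h.1 (not_le.mpr hL)⟩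
      calc ∫⁻ y in univ, ‖trap L (N n) y - (Ioo 0 L).indicator (fun _ => (1 : ℝ)) y‖ₑ ∂mLine
          ≤ ∫⁻ y in univ, D.indicator (fun _ => (1 : ℝ≥0∞)) y ∂mLine := lintegral_mono hpt
        _ = mLine D := by
            rw [Measure.restrict_univ, lintegral_indicator hDm, setLIntegral_one]
        _ = volume D := by
            unfold mLine
            rw [Measure.add_apply, Measure.dirac_apply' _ hDm, indicator_of_notMem h0D, add_zero]
        _ ≤ ENNReal.ofReal (2 / N n) + ENNReal.ofReal (1 / N n) := by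
            refine (measure_union_le _ _).trans ?_
            rw [Real.volume_Ioc, Real.volume_Icc, sub_zero]
            have : L + 1 / N n - L = 1 / N n := by ring
            rw [this]
        _ = ENNReal.ofReal (3 / N n) := by
            rw [← ENNReal.ofReal_add (by positivity) (by positivity)]
            congr 1; ring
    have hlim : Tendsto (fun n => ENNReal.ofReal (3 / N n)) atTop (𝓝 0) := by
      have h1 : Tendsto (fun n : ℕ => 3 / N n) atTop (𝓝 0) := by
        have := (tendsto_one_div_add_atTop_nhds_zero_nat (𝕜 := ℝ)).const_mul 3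
        rw [mul_zero] at this
        refine this.congr fun n => ?_
        rw [hN]; ring
      have := ENNReal.tendsto_ofReal h1
      rwa [ENNReal.ofReal_zero] at this
    exact tendsto_of_tendsto_of_tendsto_of_le_of_le tendsto_const_nhds hlim
      (fun _ => zero_le) hbound
  · -- the slopes
    have hle : ∀ n, ∫⁻ x in univ, aslope (trap L (N n)) x ∂mLine ≤ 2 := by
      intro n
      have hNn := hN0 n
      have hsm : MeasurableSet (slab L (N n)) := measurableSet_Icc.union measurableSet_Icc
      have h0s : (0 : ℝ) ∉ slab L (N n) := by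
        unfold slab
        rw [mem_union, not_or, mem_Icc, mem_Icc]
        refine ⟨fun h => absurd h.1 (not_le.mpr (by positivity)),
          fun h => absurd h.1 (not_le.mpr hL)⟩
      have hpt : ∀ x, aslope (trap L (N n)) x ≤
          (slab L (N n)).indicator (fun _ => ENNReal.ofReal (N n)) x := by
        intro x
        by_cases hx : x ∈ slab L (N n)
        · rw [indicator_of_mem hx]
          exact aslope_le univ_mem ((trap_lip hNn.le).lipschitzOnWith (s := univ))
        · rw [trap_slope_out hNn hx]; exact zero_le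
      calc ∫⁻ x in univ, aslope (trap L (N n)) x ∂mLine
          ≤ ∫⁻ x in univ, (slab L (N n)).indicator (fun _ => ENNReal.ofReal (N n)) x ∂mLine :=
            lintegral_mono hpt
        _ = ENNReal.ofReal (N n) * mLine (slab L (N n)) := by
            rw [Measure.restrict_univ, lintegral_indicator hsm, setLIntegral_const]
        _ = ENNReal.ofReal (N n) * volume (slab L (N n)) := by
            unfold mLine
            rw [Measure.add_apply, Measure.dirac_apply' _ hsm, indicator_of_notMem h0s, add_zero]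
        _ ≤ ENNReal.ofReal (N n) * ENNReal.ofReal (2 / N n) :=
            mul_le_mul_right (volume_slab hNn) _
        _ = 2 := by
            rw [← ENNReal.ofReal_mul hNn.le]
            have : N n * (2 / N n) = 2 := by field_simp
            rw [this]; simp
    refine liminf_le_of_frequently_le' (Frequently.of_forall hle)

/-- No closed set is equivalent to the interval `(0, L)`. -/
theorem no_closed {L : ℝ} (hL : 0 < L) {C : Set ℝ} (hC : IsClosed C) :
    0 < mLine (symmDiff (Ioo 0 L) C) := by
  rw [pos_iff_ne_zero]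
  intro h
  have h1 : volume (Ioo 0 L \ C) = 0 := by
    apply le_antisymm _ zero_le
    calc volume (Ioo 0 L \ C) ≤ mLine (Ioo 0 L \ C) := volume_le_mLine _
      _ ≤ mLine (symmDiff (Ioo 0 L) C) := measure_mono (by
          rw [Set.symmDiff_def]; exact subset_union_left)
      _ = 0 := h
  have hopen : IsOpen (Ioo 0 L \ C) := isOpen_Ioo.sdiff hC
  have h2 : Ioo 0 L \ C = ∅ := (hopen.measure_eq_zero_iff volume).mp h1
  have h3 : Ioo 0 L ⊆ C := sdiff_eq_bot_iff.mp h2
  have h4 : (0 : ℝ) ∈ C := by
    have : closure (Ioo 0 L) ⊆ C := closure_minimal h3 hC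
    apply this
    rw [closure_Ioo hL.ne]
    exact ⟨le_rfl, hL.le⟩
  have h5 : (0 : ℝ) ∈ symmDiff (Ioo 0 L) C := by
    rw [Set.mem_symmDiff]
    exact Or.inr ⟨h4, fun h => lt_irrefl _ h.1⟩
  have h6 : (1 : ℝ≥0∞) ≤ mLine (symmDiff (Ioo 0 L) C) := by
    have h7 : Measure.dirac (0 : ℝ) {0} = 1 := by simp
    calc (1 : ℝ≥0∞) = Measure.dirac (0 : ℝ) {0} := h7.symm
      _ ≤ mLine {0} := by
          unfold mLine; rw [Measure.add_apply]; exact le_add_self
      _ ≤ mLine (symmDiff (Ioo 0 L) C) := measure_mono (by simpa using h5)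
  rw [h] at h6
  exact absurd h6 (by simp)

end Pool.Agent.V1186.BVM
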