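import Mathlib

set_option autoImplicit false

namespace Pool.Agent.V1186.HB

open Set

/-- Slope form of one-dimensional smooth strongly convex interpolation: data on a set `S` whose
increments are between `μ` times and `L` times the increments of the abscissae extend to the
derivative of a differentiable function with the same property everywhere. -/
theorem interp {μ L : ℝ} (hμL : μ ≤ L) (S : Set ℝ) (g : ℝ → ℝ)
    (h : ∀ a ∈ S, ∀ b ∈ S, a ≤ b → μ * (b - a) ≤ g b - g a ∧ g b - g a ≤ L * (b - a)) :
    ∃ f : ℝ → ℝ, Differentiable ℝ f ∧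
      (∀ a b : ℝ, a ≤ b → μ * (b - a) ≤ deriv f b - deriv f a ∧
        deriv f b - deriv f a ≤ L * (b - a)) ∧
      ∀ a ∈ S, deriv f a = g a := by
  have hK : (0 : ℝ) ≤ (L - μ) / 2 := by linarith
  set K : NNReal := ⟨(L - μ) / 2, hK⟩ with hKdef
  have hlip : LipschitzOnWith K (fun x => g x - (μ + L) / 2 * x) S := by
    apply LipschitzOnWith.of_dist_le_mul
    intro x hx y hy
    rw [Real.dist_eq, Real.dist_eq]
    change |g x - (μ + L) / 2 * x - (g y - (μ + L) / 2 * y)| ≤ (L - μ) / 2 * |x - y|
    rcases le_total x y with hxy | hxy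
    · obtain ⟨h1, h2⟩ := h x hx y hy hxy
      rw [abs_of_nonpos (sub_nonpos.mpr hxy), abs_le]
      constructor <;> nlinarith
    · obtain ⟨h1, h2⟩ := h y hy x hx hxy
      rw [abs_of_nonneg (sub_nonneg.mpr hxy), abs_le]
      constructor <;> nlinarith
  obtain ⟨h1, h1lip, h1eq⟩ := hlip.extend_real
  set G : ℝ → ℝ := fun x => h1 x + (μ + L) / 2 * x with hG
  have hGc : Continuous G := h1lip.continuous.add (continuous_const.mul continuous_id)
  refine ⟨fun x => ∫ t in (0:ℝ)..x, G t, ?_, ?_, ?_⟩
  · intro x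
    exact (intervalIntegral.integral_hasDerivAt_right (hGc.intervalIntegrable _ _)
      (hGc.stronglyMeasurableAtFilter _ _) hGc.continuousAt).differentiableAt
  · intro a b hab
    have hd : ∀ x, deriv (fun x => ∫ t in (0:ℝ)..x, G t) x = G x := fun x =>
      Continuous.deriv_integral G hGc 0 x
    rw [hd, hd]
    have := h1lip.dist_le_mul b a
    rw [Real.dist_eq, Real.dist_eq, abs_of_nonneg (sub_nonneg.mpr hab)] at this
    change |h1 b - h1 a| ≤ (L - μ) / 2 * (b - a) at this
    rw [abs_le] at this
    simp only [hG]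
    constructor <;> nlinarith [this.1, this.2]
  · intro a ha
    rw [Continuous.deriv_integral G hGc 0 a]
    have := h1eq ha
    simp only [hG] at *
    linarith

/-- A differentiable function whose derivative has all slopes at least `μ` is strongly convex. -/
theorem strongConvex_of_slopes {μ : ℝ} {f : ℝ → ℝ} (hf : Differentiable ℝ f)
    (h : ∀ a b : ℝ, a ≤ b → μ * (b - a) ≤ deriv f b - deriv f a) :
    StrongConvexOn Set.univ μ f := by
  rw [strongConvexOn_iff_convex]
  have hsq : ∀ x : ℝ, HasDerivAt (fun x : ℝ => μ / 2 * ‖x‖ ^ 2) (μ * x) x := by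
    intro x
    have h1 : (fun x : ℝ => μ / 2 * ‖x‖ ^ 2) = fun x : ℝ => μ / 2 * x ^ 2 := by
      funext x; rw [Real.norm_eq_abs, sq_abs]
    rw [h1]
    have := ((hasDerivAt_pow 2 x).const_mul (μ / 2))
    exact this.congr_deriv (by
      simp only [Nat.cast_ofNat, Nat.add_one_sub_one, pow_one]; ring)
  have hd : ∀ x, HasDerivAt (fun x => f x - μ / 2 * ‖x‖ ^ 2) (deriv f x - μ * x) x := fun x =>
    (hf x).hasDerivAt.sub (hsq x)
  apply Monotone.convexOn_univ_of_deriv
  · exact fun x => (hd x).differentiableAt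
  · intro a b hab
    rw [(hd a).deriv, (hd b).deriv]
    have := h a b hab
    linarith

/-- The derivative of a differentiable strongly convex function has all slopes at least `μ`. -/
theorem slopes_of_strongConvex {μ : ℝ} {f : ℝ → ℝ} (hf : Differentiable ℝ f)
    (h : StrongConvexOn Set.univ μ f) :
    ∀ a b : ℝ, a ≤ b → μ * (b - a) ≤ deriv f b - deriv f a := by
  rw [strongConvexOn_iff_convex] at h
  have hsq : ∀ x : ℝ, HasDerivAt (fun x : ℝ => μ / 2 * ‖x‖ ^ 2) (μ * x) x := by
    intro x
    have h1 : (fun x : ℝ => μ / 2 * ‖x‖ ^ 2) = fun x : ℝ => μ / 2 * x ^ 2 := by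
      funext x; rw [Real.norm_eq_abs, sq_abs]
    rw [h1]
    have := ((hasDerivAt_pow 2 x).const_mul (μ / 2))
    exact this.congr_deriv (by
      simp only [Nat.cast_ofNat, Nat.add_one_sub_one, pow_one]; ring)
  have hd : ∀ x, HasDerivAt (fun x => f x - μ / 2 * ‖x‖ ^ 2) (deriv f x - μ * x) x := fun x =>
    (hf x).hasDerivAt.sub (hsq x)
  have hm := ConvexOn.monotoneOn_deriv h (fun x _ => (hd x).differentiableAt)
  intro a b hab
  have := hm (Set.mem_univ a) (Set.mem_univ b) hab
  rw [(hd a).deriv, (hd b).deriv] at this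
  linarith


/-- The scaled gradients of a cycle sum to zero. -/
theorem sum_grad {n : ℕ} {β : ℝ} (x G : ZMod (n + 3) → ℝ)
    (step : ∀ i, x (i + 1) = x i - G i + β * (x i - x (i - 1))) : ∑ i, G i = 0 := by
  have h1 : ∑ i, x (i + 1) = ∑ i, x i := Equiv.sum_comp (Equiv.addRight (1 : ZMod (n + 3))) x
  have h2 : ∑ i, x (i - 1) = ∑ i, x i := Equiv.sum_comp (Equiv.subRight (1 : ZMod (n + 3))) x
  have h3 : ∀ i, G i = (1 + β) * x i - x (i + 1) - β * x (i - 1) := by
    intro i; have := step i; linarith
  calc ∑ i, G i = ∑ i, ((1 + β) * x i - x (i + 1) - β * x (i - 1)) :=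
        Finset.sum_congr rfl (fun i _ => h3 i)
    _ = (1 + β) * ∑ i, x i - ∑ i, x (i + 1) - β * ∑ i, x (i - 1) := by
        rw [Finset.sum_sub_distrib, Finset.sum_sub_distrib, Finset.mul_sum, Finset.mul_sum]
    _ = 0 := by rw [h1, h2]; ring

/-- **Key obstruction.** If `γ μ > 2 + β` (here `q = γ μ` and `G = γ f'`), a cycle of heavy ball in
dimension one whose smallest entries are, in increasing order, `x_0, x_1, x_{-1}` is constant. -/
theorem no_sorted {n : ℕ} {β q xs : ℝ} (x G : ZMod (n + 3) → ℝ) (hβ0 : 0 < β) (hβ1 : β ≤ 1)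
    (hq : 2 + β < q)
    (step : ∀ i, x (i + 1) = x i - G i + β * (x i - x (i - 1)))
    (hmono : ∀ i j, x i ≤ x j → q * (x j - x i) ≤ G j - G i)
    (hpos : ∀ i, xs ≤ x i → q * (x i - xs) ≤ G i)
    (hneg : ∀ i, x i ≤ xs → G i ≤ q * (x i - xs))
    (h01 : x 0 ≤ x 1) (h1m : x 1 ≤ x (-1))
    (hrest : ∀ i, i ≠ 0 → i ≠ 1 → i ≠ -1 → x (-1) ≤ x i) : ∀ i j, x i = x j := by
  have hsum := sum_grad x G step
  have hq0 : 0 < q := by linarith
  -- `x 0` is the smallest entry
  have hmin : ∀ i, x 0 ≤ x i := by
    intro i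
    by_cases hi0 : i = 0
    · rw [hi0]
    by_cases hi1 : i = 1
    · rw [hi1]; exact h01
    by_cases him : i = -1
    · rw [him]; exact h01.trans h1m
    · exact (h01.trans h1m).trans (hrest i hi0 hi1 him)
  rcases le_or_gt xs (x 0) with hx0 | hx0
  · -- all gradients are nonnegative, hence zero
    have hG : ∀ i, 0 ≤ G i := fun i =>
      (mul_nonneg hq0.le (by linarith [hmin i])).trans (hpos i (hx0.trans (hmin i)))
    have hG0 : ∀ i, G i = 0 := by
      intro i
      exact (Finset.sum_eq_zero_iff_of_nonneg (fun j _ => hG j)).mp hsum i (Finset.mem_univ i)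
    have hx : ∀ i, x i = xs := by
      intro i
      have h1 := hpos i (hx0.trans (hmin i))
      rw [hG0 i] at h1
      have h2 : 0 ≤ x i - xs := by linarith [hmin i]
      nlinarith
    intro i j; rw [hx i, hx j]
  · exfalso
    have h0 := hneg 0 hx0.le
    have e0 := step 0
    rw [zero_add, zero_sub] at e0
    have h10 : (1 : ZMod (n + 3)) ≠ 0 := by
      intro h
      have := congrArg ZMod.val h
      rw [ZMod.val_one'' (by omega), ZMod.val_zero] at this
      omega
    have hm0 : (-1 : ZMod (n + 3)) ≠ 0 := by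
      intro h; exact h10 (neg_eq_zero.mp h)
    have hval : (-1 : ZMod (n + 3)).val = n + 2 := ZMod.val_neg_one (n + 2)
    have hm1 : (-1 : ZMod (n + 3)) ≠ 1 := by
      intro h
      have := congrArg ZMod.val h
      rw [ZMod.val_one'' (by omega), hval] at this
      omega
    rcases le_or_gt xs (x 1) with hx1 | hx1
    · -- case `xs ≤ x 1`
      have hxm : xs ≤ x (-1) := hx1.trans h1m
      have hnn : ∀ i, i ≠ 0 → 0 ≤ G i := by
        intro i hi0
        by_cases hi1 : i = 1
        · rw [hi1]; exact (mul_nonneg hq0.le (by linarith)).trans (hpos 1 hx1)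
        by_cases him : i = -1
        · rw [him]; exact (mul_nonneg hq0.le (by linarith)).trans (hpos (-1) hxm)
        · have := hrest i hi0 hi1 him
          exact (mul_nonneg hq0.le (by linarith)).trans (hpos i (by linarith))
      have hsub : ∑ i ∈ ({0, 1, -1} : Finset (ZMod (n + 3))), G i ≤ ∑ i, G i := by
        apply Finset.sum_le_sum_of_subset_of_nonneg (Finset.subset_univ _)
        intro i _ hi
        apply hnn
        intro h; apply hi; rw [h]; simp
      rw [hsum, Finset.sum_insert (by simp [h10.symm, hm0.symm]),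
        Finset.sum_insert (by simp [hm1.symm]), Finset.sum_singleton] at hsub
      have h1 := hpos 1 hx1
      have h2 := hpos (-1) hxm
      nlinarith [mul_nonneg hq0.le (sub_nonneg.mpr hxm), mul_nonneg (sub_nonneg.mpr hβ1) (mul_nonneg hq0.le (sub_nonneg.mpr hxm)), mul_pos hq0 (sub_pos.mpr hx0)]
    · -- case `x 1 < xs`
      have hb : 0 < xs - x 1 := by linarith
      have hqa : q * (xs - x 0) ≤ -G 0 := by nlinarith
      have hc0 : 0 < β * (x (-1) - xs) := by nlinarith
      have hc : 0 < x (-1) - xs := by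
        by_contra hcon
        exact absurd hc0 (not_lt.mpr (mul_nonpos_of_nonneg_of_nonpos hβ0.le (not_lt.mp hcon)))
      have hcβ : β * (x (-1) - xs) ≤ x (-1) - xs := by nlinarith
      have hcl : -G 0 - (1 + β) * (xs - x 0) + (xs - x 1) ≤ x (-1) - xs := by nlinarith
      rcases Nat.eq_zero_or_pos n with hn | hn
      · subst hn
        have e2 := step 2
        have h21 : (2 : ZMod (0 + 3)) + 1 = 0 := by decide
        have h22 : (2 : ZMod (0 + 3)) - 1 = 1 := by decide
        have h23 : (-1 : ZMod (0 + 3)) = 2 := by decide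
        rw [h21, h22] at e2
        rw [h23] at hc hcl
        have h2 := hpos 2 (by linarith)
        have hr : 1 < q - 1 - β := by linarith
        have h3 : (q - 1 - β) * (xs - x 0) + (xs - x 1) ≤ x 2 - xs := by nlinarith
        have h4 : (q - 1 - β) * (x 2 - xs) ≤ (xs - x 0) + β * (xs - x 1) := by nlinarith
        have h5 : (q - 1 - β) * ((q - 1 - β) * (xs - x 0) + (xs - x 1))
            ≤ (q - 1 - β) * (x 2 - xs) := mul_le_mul_of_nonneg_left h3 (by linarith)
        have h6 : β * (xs - x 1) ≤ xs - x 1 := by nlinarith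
        have h7 : (xs - x 1) < (q - 1 - β) * (xs - x 1) := by nlinarith
        have h8 : (xs - x 0) < (q - 1 - β) * (xs - x 0) := by nlinarith
        have h9 : (xs - x 0) < (q - 1 - β) * ((q - 1 - β) * (xs - x 0)) := by nlinarith
        nlinarith
      · have hv2 : (2 : ZMod (n + 3)).val = 2 := by
          have := ZMod.val_natCast_of_lt (n := n + 3) (a := 2) (by omega)
          simpa using this
        have h20 : (2 : ZMod (n + 3)) ≠ 0 := by
          intro h
          have := congrArg ZMod.val h
          rw [ZMod.val_zero, hv2] at this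
          omega
        have h21 : (2 : ZMod (n + 3)) ≠ 1 := by
          intro h
          have := congrArg ZMod.val h
          rw [ZMod.val_one'' (by omega), hv2] at this
          omega
        have h2m : (2 : ZMod (n + 3)) ≠ -1 := by
          intro h
          have := congrArg ZMod.val h
          rw [hval, hv2] at this
          omega
        have hx2 := hrest 2 h20 h21 h2m
        have hnn : ∀ i, i ≠ 0 → i ≠ 1 → 0 ≤ G i := by
          intro i hi0 hi1
          by_cases him : i = -1
          · rw [him]; exact (mul_nonneg hq0.le hc.le).trans (hpos (-1) (by linarith))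
          · have := hrest i hi0 hi1 him
            exact (mul_nonneg hq0.le (by linarith)).trans (hpos i (by linarith))
        have hsub : ∑ i ∈ ({0, 1, -1, 2} : Finset (ZMod (n + 3))), G i ≤ ∑ i, G i := by
          apply Finset.sum_le_sum_of_subset_of_nonneg (Finset.subset_univ _)
          intro i _ hi
          apply hnn
          · intro h; apply hi; rw [h]; simp
          · intro h; apply hi; rw [h]; simp
        rw [hsum, Finset.sum_insert (by simp [h10.symm, hm0.symm, h20.symm]),
          Finset.sum_insert (by simp [hm1.symm, h21.symm]),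
          Finset.sum_insert (by simp [h2m.symm]), Finset.sum_singleton] at hsub
        have h1 := hmono 0 1 h01
        have h2 := hpos 2 (by linarith)
        have h3 := hpos (-1) (by linarith)
        have h4 : q * (x (-1) - xs) ≤ q * (x 2 - xs) :=
          mul_le_mul_of_nonneg_left (by linarith) hq0.le
        have h5 : q * (-G 0 - (1 + β) * (xs - x 0) + (xs - x 1)) ≤ q * (x (-1) - xs) :=
          mul_le_mul_of_nonneg_left hcl hq0.le
        -- sum ≥ 2 G 0 + q (x 1 - x 0) + 2 q (x (-1) - xs)
        have h6 : 2 * G 0 + q * (x 1 - x 0)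
            + 2 * (q * (-G 0 - (1 + β) * (xs - x 0) + (xs - x 1))) ≤ 0 := by linarith
        have h7 : (2 * q - 2) * (q * (xs - x 0)) ≤ (2 * q - 2) * (-G 0) :=
          mul_le_mul_of_nonneg_left hqa (by linarith)
        have h8 : 0 < q * (xs - x 1) := mul_pos hq0 hb
        have h9 : 0 < (2 * q - 3 - 2 * β) * (q * (xs - x 0)) :=
          mul_pos (by linarith) (mul_pos hq0 (by linarith))
        nlinarith


/-- A function with slopes of the derivative in `[μ, L]`, `μ > 0`, has a critical point. -/
theorem exists_crit {μ L : ℝ} {f : ℝ → ℝ} (hμ : 0 < μ)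
    (h : ∀ a b : ℝ, a ≤ b → μ * (b - a) ≤ deriv f b - deriv f a ∧
      deriv f b - deriv f a ≤ L * (b - a)) : ∃ xs : ℝ, deriv f xs = 0 := by
  have hL : 0 ≤ L := by
    obtain ⟨h1, h2⟩ := h 0 1 zero_le_one
    linarith
  have hc : Continuous (deriv f) := by
    have : LipschitzWith ⟨L, hL⟩ (deriv f) := by
      apply LipschitzWith.of_dist_le_mul
      intro x y
      rw [Real.dist_eq, Real.dist_eq]
      change |deriv f x - deriv f y| ≤ L * |x - y|
      rcases le_total x y with hxy | hxy
      · obtain ⟨h1, h2⟩ := h x y hxy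
        rw [abs_sub_comm, abs_sub_comm x y, abs_of_nonneg (by linarith : 0 ≤ y - x),
          abs_of_nonneg (by nlinarith : 0 ≤ deriv f y - deriv f x)]
        exact h2
      · obtain ⟨h1, h2⟩ := h y x hxy
        rw [abs_of_nonneg (by linarith : 0 ≤ x - y),
          abs_of_nonneg (by nlinarith : 0 ≤ deriv f x - deriv f y)]
        exact h2
    exact this.continuous
  set r : ℝ := |deriv f 0| / μ with hr
  have hr0 : 0 ≤ r := by positivity
  have hrμ : μ * r = |deriv f 0| := by rw [hr]; field_simp
  have h1 := (h 0 r hr0).1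
  have h2 := (h (-r) 0 (by linarith)).1
  have h3 : deriv f (-r) ≤ 0 := by
    have := le_abs_self (deriv f 0); nlinarith
  have h4 : 0 ≤ deriv f r := by
    have := neg_abs_le (deriv f 0); nlinarith
  obtain ⟨xs, _, hxs⟩ := intermediate_value_Icc (by linarith : -r ≤ r) hc.continuousOn
    (⟨h3, h4⟩ : (0 : ℝ) ∈ Set.Icc (deriv f (-r)) (deriv f r))
  exact ⟨xs, hxs⟩

/-! ### The golden five-cycle -/

/-- The golden five-cycle (to be used with `g` the golden ratio). -/
def x5 (g : ℝ) : ZMod 5 → ℝ := ![1, 0, -1, g, -g]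

theorem forall5 {P : ZMod 5 → Prop} (h0 : P 0) (h1 : P 1) (h2 : P 2) (h3 : P 3) (h4 : P 4) :
    ∀ i, P i := by
  intro i; fin_cases i <;> assumption

theorem golden_lb : 1.618 < Real.goldenRatio := by
  have h := Real.goldenRatio_sq
  have h0 := Real.goldenRatio_pos
  nlinarith

theorem golden_ub : Real.goldenRatio < 1.61804 := by
  have h := Real.goldenRatio_sq
  have h0 := Real.goldenRatio_pos
  nlinarith

theorem x5_inj {g : ℝ} (hg : 1 < g) : Function.Injective (x5 g) := by
  have key : ∀ i j : ZMod 5, i ≠ j → x5 g i ≠ x5 g j := by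
    apply forall5 <;> apply forall5 <;> intro hij <;>
      first
        | exact absurd rfl hij
        | (change (1 : ℝ) ≠ 0; norm_num)
        | (change (0 : ℝ) ≠ 1; norm_num)
        | (change (1 : ℝ) ≠ -1; norm_num)
        | (change (-1 : ℝ) ≠ 1; norm_num)
        | (change (0 : ℝ) ≠ -1; norm_num)
        | (change (-1 : ℝ) ≠ 0; norm_num)
        | (change (1 : ℝ) ≠ g; linarith)
        | (change g ≠ (1 : ℝ); linarith)
        | (change (1 : ℝ) ≠ -g; linarith)
        | (change -g ≠ (1 : ℝ); linarith)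
        | (change (0 : ℝ) ≠ g; linarith)
        | (change g ≠ (0 : ℝ); linarith)
        | (change (0 : ℝ) ≠ -g; linarith)
        | (change -g ≠ (0 : ℝ); linarith)
        | (change (-1 : ℝ) ≠ g; linarith)
        | (change g ≠ (-1 : ℝ); linarith)
        | (change (-1 : ℝ) ≠ -g; linarith)
        | (change -g ≠ (-1 : ℝ); linarith)
        | (change g ≠ -g; linarith)
        | (change -g ≠ g; linarith)
  intro i j h
  by_contra hij
  exact key i j hij h

/-- Scaled gradients along the golden five-cycle. -/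
noncomputable def H5 (g β : ℝ) : ZMod 5 → ℝ :=
  ![1 + β + β * g, 1 - β, -(1 + β) - g, (1 + β) * g + g + β, -(1 + β) * g - 1 - β * g]

theorem H5_eq (g β : ℝ) : ∀ i : ZMod 5,
    (1 + β) * x5 g i - x5 g (i + 1) - β * x5 g (i - 1) = H5 g β i := by
  apply forall5
  · change (1 + β) * 1 - 0 - β * (-g) = 1 + β + β * g
    ring
  · change (1 + β) * 0 - (-1) - β * 1 = 1 - β
    ring
  · change (1 + β) * (-1) - g - β * 0 = -(1 + β) - g
    ring
  · change (1 + β) * g - (-g) - β * (-1) = (1 + β) * g + g + β
    ring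
  · change (1 + β) * (-g) - 1 - β * g = -(1 + β) * g - 1 - β * g
    ring

theorem H5_pairs {g β : ℝ} (hg : g ^ 2 = g + 1) (hg1 : 1 < g) (hβ0 : 0 < β) (hβ1 : β ≤ 1) :
    ∀ i j : ZMod 5, x5 g i ≤ x5 g j →
      (2 + g) * β * (x5 g j - x5 g i) ≤ H5 g β j - H5 g β i ∧
        H5 g β j - H5 g β i ≤ (2 + g) * (x5 g j - x5 g i) := by
  have a0 : x5 g 0 = 1 := rfl
  have a1 : x5 g 1 = 0 := rfl
  have a2 : x5 g 2 = -1 := rfl
  have a3 : x5 g 3 = g := rfl
  have a4 : x5 g 4 = -g := rfl
  have b0 : H5 g β 0 = 1 + β + β * g := rfl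
  have b1 : H5 g β 1 = 1 - β := rfl
  have b2 : H5 g β 2 = -(1 + β) - g := rfl
  have b3 : H5 g β 3 = (1 + β) * g + g + β := rfl
  have b4 : H5 g β 4 = -(1 + β) * g - 1 - β * g := rfl
  have c1 : (1 - β) * (g - 1) ≥ 0 := mul_nonneg (by linarith) (by linarith)
  have c2 : β * g ≥ 0 := by positivity
  have c3 : (1 - β) * g ≥ 0 := mul_nonneg (by linarith) (by linarith)
  have d1 : β * g ^ 2 = β * g + β := by rw [hg]; ring
  have d2 : β * g ^ 2 = β * g * g := by ring
  apply forall5 <;> apply forall5 <;> simp only [a0, a1, a2, a3, a4, b0, b1, b2, b3, b4] <;>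
    intro h <;> first | (exfalso; linarith) | (constructor <;> linarith)

end Pool.Agent.V1186.HB
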